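import Mathlib

namespace Pool.Agent.Results.MP_d100af_an.OnePartner

open Set Filter Metric Topology

/-- Nonempty, compact, totally disconnected, without isolated points. -/
def IsCantor (K : Set ℝ) : Prop :=
  K.Nonempty ∧ IsCompact K ∧ IsTotallyDisconnected K ∧ ∀ x ∈ K, AccPt x (𝓟 K)

/-- The tree distance set `Δ^T(X)`, with coordinates indexed by the edges of `T`. -/
def treeDist {V : Type} (T : SimpleGraph V) (X : Set (ℝ × ℝ)) : Set (T.edgeSet → ℝ) :=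
  {d | ∃ y : V → ℝ × ℝ, Function.Injective y ∧ (∀ v, y v ∈ X) ∧
    ∀ a b (h : T.Adj a b), d ⟨s(a, b), h⟩ = √(((y a).1 - (y b).1) ^ 2 + ((y a).2 - (y b).2) ^ 2)}

theorem unif {K : Set ℝ} (hK : IsCantor K) (η : ℝ) : ∃ δ, 0 < η → 0 < δ ∧
    ∀ c ∈ K, ∃ c' ∈ K, δ ≤ |c - c'| ∧ |c - c'| ≤ η / 2 := by
  by_cases hη : 0 < η
  swap
  · exact ⟨0, fun h => absurd h hη⟩
  suffices h : ∃ δ, 0 < δ ∧ ∀ c ∈ K, ∃ c' ∈ K, δ ≤ |c - c'| ∧ |c - c'| ≤ η / 2 from
    h.imp fun δ h _ => h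
  refine hK.2.1.induction_on (p := fun s => ∃ δ, 0 < δ ∧ ∀ c ∈ s, ∃ c' ∈ K,
    δ ≤ |c - c'| ∧ |c - c'| ≤ η / 2) ⟨1, one_pos, by simp⟩ ?_ ?_ ?_
  · rintro s t hst ⟨δ, h0, h⟩; exact ⟨δ, h0, fun c hc => h c (hst hc)⟩
  · rintro s t ⟨δ, h0, h⟩ ⟨δ', h0', h'⟩
    refine ⟨min δ δ', lt_min h0 h0', ?_⟩
    rintro c (hc | hc)
    · obtain ⟨c', a, b, d⟩ := h c hc; exact ⟨c', a, (min_le_left _ _).trans b, d⟩
    · obtain ⟨c', a, b, d⟩ := h' c hc; exact ⟨c', a, (min_le_right _ _).trans b, d⟩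
  · intro x hx
    obtain ⟨y, ⟨h1, h2⟩, h3⟩ := accPt_iff_nhds.1 (hK.2.2.2 x hx) (ball x (η / 4))
      (ball_mem_nhds _ (by positivity))
    have p : 0 < |y - x| := abs_pos.2 (sub_ne_zero.2 h3)
    refine ⟨ball x (|y - x| / 2), mem_nhdsWithin_of_mem_nhds (ball_mem_nhds _ (by positivity)),
      |y - x| / 2, by positivity, fun c hc => ⟨y, h2, ?_⟩⟩
    rw [mem_ball, Real.dist_eq] at h1 hc
    have a1 := abs_sub_le c x y
    have a2 := abs_sub_le y c x
    rw [abs_sub_comm x y] at a1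
    rw [abs_sub_comm y c] at a2
    constructor <;> linarith

theorem scales {K : Set ℝ} (hK : IsCantor K) : ∃ η : ℕ → ℝ, (∀ m, 0 < η m) ∧
    (∀ m : ℕ, η m ≤ 1 / ((m : ℝ) + 1) ^ 3) ∧ ∀ m, η (m + 1) ≤ η m / 2 ∧
      ∀ c ∈ K, ∃ c' ∈ K, 4 * η (m + 1) ≤ |c - c'| ∧ |c - c'| ≤ η m / 2 := by
  choose D hD using unif hK
  let η : ℕ → ℝ := fun m => Nat.rec 1
    (fun m e => min (min (D e / 4) (e / 2)) (1 / (((m + 1 : ℕ) : ℝ) + 1) ^ 3)) m
  have e : ∀ m, η (m + 1) = min (min (D (η m) / 4) (η m / 2)) (1 / (((m + 1 : ℕ) : ℝ) + 1) ^ 3) :=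
    fun _ => rfl
  have p : ∀ m, 0 < η m := fun m => by
    induction m with
    | zero => exact one_pos
    | succ m ih => rw [e]; have := (hD _ ih).1; positivity
  refine ⟨η, p, fun m => ?_, fun m => ⟨(min_le_left _ _).trans (min_le_right _ _), fun c hc => ?_⟩⟩
  · cases m with
    | zero => simp [η]
    | succ m => exact min_le_right _ _
  · obtain ⟨c', a, b, d⟩ := (hD _ (p m)).2 c hc
    have : η (m + 1) ≤ D (η m) / 4 := (min_le_left _ _).trans (min_le_left _ _)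
    exact ⟨c', a, by linarith, d⟩

theorem avoid {K : Set ℝ} (hK : IsCompact K) {η : ℕ → ℝ} (p : ∀ m, 0 < η m)
    (h : ∀ m, η (m + 1) ≤ η m / 2 ∧
      ∀ c ∈ K, ∃ c' ∈ K, 4 * η (m + 1) ≤ |c - c'| ∧ |c - c'| ≤ η m / 2)
    (S : ℕ → Set ℝ) (hS : ∀ m, ∀ a ∈ S m, ∀ b ∈ S m, |a - b| < 2 * η (m + 1))
    {c : ℝ} (hc : c ∈ K) {φ : ℝ → ℝ} (hφ : ∀ x ∈ K, ∀ x' ∈ K, |x - c| ≤ η 0 → |x' - c| ≤ η 0 →
      |x - x'| ≤ |φ x - φ x'|) : ∃ x ∈ K, |x - c| ≤ η 0 ∧ ∀ m, φ x ∉ S m := by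
  have st : ∀ m c1, ∃ c2, c1 ∈ K → (∀ x, |x - c1| ≤ η m → |x - c| ≤ η 0) → c2 ∈ K ∧
      (∀ x, |x - c2| ≤ η (m + 1) → |x - c1| ≤ η m) ∧
      ∀ x ∈ K, |x - c2| ≤ η (m + 1) → φ x ∉ S m := fun m c1 => by
    by_cases h1 : c1 ∈ K
    swap
    · exact ⟨0, fun h => absurd h h1⟩
    obtain ⟨c', a, b, d⟩ := (h m).2 c1 h1
    have s1 : ∀ x, |x - c1| ≤ η (m + 1) → |x - c1| ≤ η m := fun x hx => by
      linarith [(h m).1, p m]
    have s2 : ∀ x, |x - c'| ≤ η (m + 1) → |x - c1| ≤ η m := fun x hx => by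
      linarith [(h m).1, abs_sub_le x c' c1, abs_sub_comm c1 c']
    by_cases h2 : ∀ x ∈ K, |x - c1| ≤ η (m + 1) → φ x ∉ S m
    · exact ⟨c1, fun _ _ => ⟨h1, s1, h2⟩⟩
    · push Not at h2
      obtain ⟨x, x1, x2, x3⟩ := h2
      refine ⟨c', fun _ hb => ⟨a, s2, fun y y1 y2 y3 => ?_⟩⟩
      have := hφ x x1 y y1 (hb _ (s1 _ x2)) (hb _ (s2 _ y2))
      linarith [hS m _ x3 _ y3, abs_sub_le c1 x c', abs_sub_le x y c', abs_sub_comm c1 x]
  choose nx hnx using st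
  let cs : ℕ → ℝ := fun m => Nat.rec c nx m
  have inv : ∀ m, cs m ∈ K ∧ ∀ x, |x - cs m| ≤ η m → |x - c| ≤ η 0 := fun m => by
    induction m with
    | zero => exact ⟨hc, fun _ h => h⟩
    | succ m ih =>
      obtain ⟨a, b, -⟩ := hnx m _ ih.1 ih.2
      exact ⟨a, fun x hx => ih.2 x (b x hx)⟩
  have cl : ∀ m, IsClosed {x : ℝ | |x - cs m| ≤ η m} := fun m =>
    isClosed_le (by fun_prop) continuous_const
  obtain ⟨x, hx⟩ := IsCompact.nonempty_iInter_of_sequence_nonempty_isCompact_isClosed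
    (fun m => K ∩ {x | |x - cs m| ≤ η m})
    (fun m x hx => ⟨hx.1, (hnx m _ (inv m).1 (inv m).2).2.1 x hx.2⟩)
    (fun m => ⟨cs m, (inv m).1, by simpa using (p m).le⟩) (hK.inter_right (cl 0))
    fun m => hK.isClosed.inter (cl m)
  rw [mem_iInter] at hx
  exact ⟨x, (hx 0).1, (hx 0).2, fun m =>
    (hnx m _ (inv m).1 (inv m).2).2.2 x (hx 0).1 (hx (m + 1)).2⟩

theorem partner {K : Set ℝ} (hK : IsCantor K) : ∃ (D : Set ℝ) (e : ℕ → ℝ), IsCantor D ∧
    (∀ J, 0 < e J) ∧ (∀ J : ℕ, e J ≤ 1 / ((J : ℝ) + 1) ^ 3) ∧ ∀ (J : ℕ), ∀ c ∈ K, ∀ φ : ℝ → ℝ,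
      (∀ x ∈ K, ∀ x' ∈ K, |x - c| ≤ e J → |x' - c| ≤ e J → |x - x'| ≤ |φ x - φ x'|) →
      (∀ x, |x - c| ≤ e J → 0 ≤ φ x ∧ φ x ≤ 1 / ((J : ℝ) + 1)) →
      ∃ x ∈ K, |x - c| ≤ e J ∧ φ x ∈ D := by
  obtain ⟨η, p, h1, h2⟩ := scales hK
  obtain ⟨en, hen⟩ := exists_surjective_nat ℚ
  let G : ℕ → Set ℝ := fun j =>
    {z | |z - (en (Nat.unpair j).1 : ℚ)| < η (2 * j + 1)} ∩ Ioi (1 / ((j : ℝ) + 1))
  have cl : IsClosed (Icc (0 : ℝ) 1 \ ⋃ j, G j) := isClosed_Icc.sdiff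
    (isOpen_iUnion fun j => (isOpen_lt (by fun_prop) continuous_const).inter isOpen_Ioi)
  obtain ⟨V, D, hV, hD, e⟩ := exists_countable_union_perfect_of_isClosed cl
  obtain ⟨f, hf⟩ := countable_iff_exists_subset_range.1 hV
  have sub : D ⊆ Icc (0 : ℝ) 1 \ ⋃ j, G j := e ▸ subset_union_right
  have hit : ∀ (J : ℕ), ∀ c ∈ K, ∀ φ : ℝ → ℝ,
      (∀ x ∈ K, ∀ x' ∈ K, |x - c| ≤ η (2 * J) → |x' - c| ≤ η (2 * J) → |x - x'| ≤ |φ x - φ x'|) →
      (∀ x, |x - c| ≤ η (2 * J) → 0 ≤ φ x ∧ φ x ≤ 1 / ((J : ℝ) + 1)) →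
      ∃ x ∈ K, |x - c| ≤ η (2 * J) ∧ φ x ∈ D := fun J c hc φ a b => by
    obtain ⟨x, x1, x2, x3⟩ := avoid hK.2.1 (η := fun m => η (2 * J + m)) (fun _ => p _)
      (fun m => h2 _) (fun m => if m % 2 = 0 then G (J + m / 2) else {f (m / 2)})
      (fun m u hu v hv => by
        by_cases hm : m % 2 = 0
        · simp only [if_pos hm] at hu hv
          have e1 : 2 * J + (m + 1) = 2 * (J + m / 2) + 1 := by omega
          have u1 := abs_lt.1 (mem_setOf.1 hu.1)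
          have v1 := abs_lt.1 (mem_setOf.1 hv.1)
          simp only [e1]
          rw [abs_lt]; constructor <;> linarith [u1.1, u1.2, v1.1, v1.2]
        · simp only [if_neg hm, mem_singleton_iff] at hu hv
          simpa [hu, hv] using p _) hc a
    refine ⟨x, x1, x2, ?_⟩
    obtain ⟨b1, b2⟩ := b x x2
    have : φ x ∈ V ∪ D := by
      rw [← e]
      refine ⟨⟨b1, b2.trans ((div_le_one (by positivity)).2 (by simp))⟩, fun hx => ?_⟩
      obtain ⟨j, hj⟩ := mem_iUnion.1 hx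
      rcases lt_or_ge j J with l | l
      · have : (j : ℝ) ≤ J := by exact_mod_cast l.le
        have : 1 / ((J : ℝ) + 1) ≤ 1 / ((j : ℝ) + 1) := by gcongr
        linarith [mem_Ioi.1 hj.2]
      · have := x3 (2 * (j - J))
        rw [if_pos (by omega), show J + 2 * (j - J) / 2 = j by omega] at this
        exact this hj
    refine this.resolve_left fun hv => ?_
    obtain ⟨i, hi⟩ := hf hv
    have := x3 (2 * i + 1)
    rw [if_neg (by omega), show (2 * i + 1) / 2 = i by omega] at this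
    exact this hi.symm
  refine ⟨D, fun J => η (2 * J), ⟨?_, isCompact_Icc.of_isClosed_subset hD.closed
    fun x hx => (sub hx).1, ?_, hD.acc⟩, fun _ => p _, fun J => (h1 _).trans ?_, hit⟩
  · obtain ⟨c, hc⟩ := hK.1
    have h3 := h1 (2 * 1)
    obtain ⟨x, -, -, hx⟩ := hit 1 c hc (fun x => 1 / 4 + (x - c))
      (fun x _ x' _ _ _ => by simp) fun x hx => by
        norm_num at h3 ⊢
        constructor <;> linarith [(abs_le.1 hx).1, (abs_le.1 hx).2]
    exact ⟨_, hx⟩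
  · intro t ht hp
    have key : ∀ a ∈ t, ∀ b ∈ t, ¬ a < b := fun a ha b hb hab => by
      obtain ⟨q, q1, q2⟩ := exists_rat_btwn hab
      have q0 : (0 : ℝ) < q := (sub (ht ha)).1.1.trans_lt q1
      obtain ⟨k, hk⟩ := exists_nat_one_div_lt q0
      obtain ⟨i, rfl⟩ := hen q
      refine (sub (ht (hp.ordConnected.out ha hb ⟨q1.le, q2.le⟩))).2
        (mem_iUnion.2 ⟨Nat.pair i k, ?_, lt_of_le_of_lt ?_ hk⟩)
      · simpa using p _
      · have : (k : ℝ) ≤ (Nat.pair i k : ℕ) := by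
          exact_mod_cast Nat.right_le_pair _ _
        gcongr
    exact fun a ha b hb => le_antisymm (not_lt.1 (key b hb a ha)) (not_lt.1 (key a ha b hb))
  · have : (J : ℝ) ≤ (2 * J : ℕ) := by exact_mod_cast (by omega : J ≤ 2 * J)
    gcongr

theorem uniq {V : Type} {T : SimpleGraph V} (hT : T.IsTree) (r : V) {v a b : V} (ha : T.Adj a v)
    (hb : T.Adj b v) (ea : T.dist r a + 1 = T.dist r v) (eb : T.dist r b + 1 = T.dist r v) :
    a = b := by
  obtain ⟨p, hp⟩ := hT.connected.exists_walk_length_eq_dist r a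
  obtain ⟨q, hq⟩ := hT.connected.exists_walk_length_eq_dist r b
  have h1 := (p.concat ha).isPath_of_length_eq_dist (by simp [hp, ea])
  have h2 := (q.concat hb).isPath_of_length_eq_dist (by simp [hq, eb])
  have := congrArg (fun z => z.1.penultimate) (hT.isAcyclic.path_unique ⟨_, h1⟩ ⟨_, h2⟩)
  simpa using this

theorem calc1 {x p a b M η h : ℝ} (hx : |x - a| ≤ η) (hp : |p - b| ≤ η) (hM : |a - b| ≤ M)
    (h1 : η ≤ 1) (h2 : η * (4 * M + 4) ≤ h ^ 2) : |(x - p) ^ 2 - (a - b) ^ 2| ≤ h ^ 2 := by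
  have e : (x - p) ^ 2 - (a - b) ^ 2 = ((x - a) - (p - b)) * ((x - a) - (p - b) + 2 * (a - b)) := by
    ring
  have a1 : |(x - a) - (p - b)| ≤ 2 * η := (abs_sub _ _).trans (by linarith)
  have a2 : |(x - a) - (p - b) + 2 * (a - b)| ≤ 2 * M + 2 := by
    refine (abs_add_le _ _).trans ?_
    rw [abs_mul, abs_two]; linarith
  rw [e, abs_mul]
  exact (mul_le_mul a1 a2 (abs_nonneg _) ((abs_nonneg _).trans a1)).trans (by linarith)

theorem calc2 {x x' p u h : ℝ} (h0 : 0 < h) (a : 0 ≤ u - (x - p) ^ 2) (a' : 0 ≤ u - (x' - p) ^ 2)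
    (b : √(u - (x - p) ^ 2) ≤ 2 * h) (b' : √(u - (x' - p) ^ 2) ≤ 2 * h)
    (c : 4 * h ≤ |x + x' - 2 * p|) : |x - x'| ≤ |√(u - (x - p) ^ 2) - √(u - (x' - p) ^ 2)| := by
  set A := √(u - (x - p) ^ 2)
  set B := √(u - (x' - p) ^ 2)
  have e : (A - B) * (A + B) = -((x - x') * (x + x' - 2 * p)) := by
    have := Real.mul_self_sqrt a
    have := Real.mul_self_sqrt a'
    linarith
  have A0 : 0 ≤ A + B := by positivity
  have e2 := congrArg abs e
  rw [abs_neg, abs_mul, abs_mul, abs_of_nonneg A0] at e2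
  have h1 : |x - x'| * (4 * h) ≤ |A - B| * (4 * h) :=
    calc _ ≤ |x - x'| * |x + x' - 2 * p| := by gcongr
      _ = |A - B| * (A + B) := e2.symm
      _ ≤ _ := by gcongr; linarith
  exact le_of_mul_le_mul_right h1 (by positivity)

theorem result (K : Set ℝ) (hK : IsCantor K) : ∃ K' : Set ℝ, IsCantor K' ∧
    ∀ (n : ℕ) (T : SimpleGraph (Fin n)), T.IsTree → (interior (treeDist T (K ×ˢ K'))).Nonempty := by
  classical
  obtain ⟨D, e, hD, e0, e1, hit⟩ := partner hK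
  refine ⟨D, hD, fun n T hT => ?_⟩
  obtain ⟨r⟩ := hT.connected.nonempty
  obtain ⟨c0, hc0⟩ := hK.1
  let emb := (Set.Infinite.of_accPt (hK.2.2.2 c0 hc0)).natEmbedding
  let c : Fin n → ℝ := fun v => emb v
  have cK : ∀ v, c v ∈ K := fun v => (emb v).2
  have ci : Function.Injective c := fun a b h => Fin.ext (emb.injective (Subtype.ext h))
  obtain ⟨M, hM⟩ := Finite.exists_le fun p : Fin n × Fin n => |c p.1 - c p.2|
  obtain ⟨N, hN⟩ := Finite.exists_le fun v : Fin n => T.dist r v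
  obtain ⟨s', hs'⟩ := Finite.exists_le fun p : Fin n × Fin n => 1 / |c p.1 - c p.2|
  have M0 : 0 ≤ M := (abs_nonneg _).trans (hM (r, r))
  have s0 : 0 ≤ s' := le_trans (by positivity) (hs' (r, r))
  obtain ⟨J, hJ⟩ := exists_nat_ge ((4 * M + 4) * (2 * (N + 1)) ^ 2 + 8 * s')
  set η := e J
  set k : ℝ := J + 1 with hk
  set w : ℝ := 2 * (N + 1) with hw
  have w1 : 2 ≤ w := by rw [hw]; linarith [Nat.cast_nonneg (α := ℝ) N]
  have k1 : 1 ≤ k := by rw [hk]; simp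
  set h : ℝ := 1 / (w * k) with hh
  have h0 : 0 < h := by positivity
  have η0 : 0 < η := e0 J
  have η2 : η * (4 * M + 4) ≤ h ^ 2 := by
    have : η * k ^ 3 ≤ 1 := (le_div_iff₀ (by positivity)).1 (e1 J)
    rw [hh, div_pow, one_pow, le_div_iff₀ (by positivity)]
    have a : (4 * M + 4) * w ^ 2 ≤ k := by linarith
    calc η * (4 * M + 4) * (w * k) ^ 2 = η * k ^ 2 * ((4 * M + 4) * w ^ 2) := by ring
      _ ≤ η * k ^ 2 * k := by gcongr
      _ ≤ 1 := by linarith [show η * k ^ 2 * k = η * k ^ 3 by ring]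
  have h1 : h ≤ 1 := (div_le_one (by positivity)).2 (by nlinarith)
  have η3 : 4 * η ≤ h := by nlinarith
  have sep : ∀ a b, a ≠ b → 8 * h ≤ |c a - c b| := fun a b hab => by
    have p : 0 < |c a - c b| := abs_pos.2 (sub_ne_zero.2 (ci.ne hab))
    have a1 : 1 ≤ s' * |c a - c b| := (div_le_iff₀ p).1 (hs' (a, b))
    have a2 : 8 * s' ≤ w * k := by nlinarith [show 0 ≤ (4 * M + 4) * w ^ 2 by positivity]
    rw [hh, mul_one_div, div_le_iff₀ (by positivity)]
    nlinarith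
  have win : ∀ m : ℕ, m ≤ N → 2 * h * (m + 1) ≤ 1 / k := fun m hm => by
    have : (m : ℝ) ≤ N := by exact_mod_cast hm
    have e3 : 1 / k = 2 * h * (N + 1) := by rw [hh, hw]; field_simp
    rw [e3]; gcongr
  let g : Sym2 (Fin n) → ℝ := Sym2.lift ⟨fun a b => (c a - c b) ^ 2, fun a b => by ring⟩
  have g0 : ∀ z, 0 ≤ g z := fun z => Sym2.ind (fun a b => sq_nonneg _) z
  let U : Set (T.edgeSet → ℝ) := univ.pi fun z => Ioo √(g z + 2 * h ^ 2) √(g z + 3 * h ^ 2)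
  have hU : U ⊆ treeDist T (K ×ˢ D) := by
    intro d hd
    have hd2 : ∀ a b (hab : T.Adj a b), 0 ≤ d ⟨s(a, b), hab⟩ ∧
        (c a - c b) ^ 2 + 2 * h ^ 2 ≤ d ⟨s(a, b), hab⟩ ^ 2 ∧
        d ⟨s(a, b), hab⟩ ^ 2 ≤ (c a - c b) ^ 2 + 3 * h ^ 2 := fun a b hab => by
      obtain ⟨a1, a2⟩ := hd ⟨s(a, b), hab⟩ (mem_univ _)
      have a0 := (Real.sqrt_nonneg _).trans a1.le
      exact ⟨a0, ((Real.sqrt_lt' ((Real.sqrt_nonneg _).trans_lt a1)).1 a1).le,
        ((Real.lt_sqrt a0).1 a2).le⟩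
    let P : Fin n → ℝ × ℝ → Prop := fun v y =>
      y ∈ K ×ˢ D ∧ |y.1 - c v| ≤ η ∧ 0 ≤ y.2 ∧ y.2 ≤ 2 * h * (T.dist r v + 1)
    let R : (Fin n → ℝ × ℝ) → Fin n → ℝ × ℝ → Prop := fun y v z => ∀ a (hab : T.Adj a v),
      T.dist r a + 1 = T.dist r v → d ⟨s(a, v), hab⟩ ^ 2 = ((y a).1 - z.1) ^ 2 + ((y a).2 - z.2) ^ 2
    have new : ∀ (y : Fin n → ℝ × ℝ) v, (∀ a, T.dist r a < T.dist r v → P a (y a)) →
        ∃ z, P v z ∧ R y v z := fun y v hy => by
      by_cases ex : ∃ a, T.Adj a v ∧ T.dist r a + 1 = T.dist r v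
      · obtain ⟨a, hab, ea⟩ := ex
        obtain ⟨-, p1, p2, p3⟩ := hy a (by omega)
        obtain ⟨d0, d1, d2⟩ := hd2 a v hab
        set u := d ⟨s(a, v), hab⟩ ^ 2 with hu
        have bd : ∀ x, |x - c v| ≤ η → 0 ≤ u - (x - (y a).1) ^ 2 ∧
            √(u - (x - (y a).1) ^ 2) ≤ 2 * h := fun x hx => by
          have := abs_le.1 (calc1 hx p1 (hM (v, a)) (by linarith) η2)
          exact ⟨by nlinarith, Real.sqrt_le_iff.2 ⟨by positivity, by nlinarith⟩⟩
        have ea' : (T.dist r v : ℝ) = T.dist r a + 1 := by exact_mod_cast ea.symm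
        have ub : ∀ x, |x - c v| ≤ η →
            (y a).2 + √(u - (x - (y a).1) ^ 2) ≤ 2 * h * (T.dist r v + 1) := fun x hx => by
          rw [ea']; linarith [(bd x hx).2]
        obtain ⟨x, x1, x2, x3⟩ := hit J (c v) (cK v) (fun x => (y a).2 + √(u - (x - (y a).1) ^ 2))
          (fun x _ x' _ hx hx' => by
            rw [add_sub_add_left_eq_sub]
            refine calc2 h0 (bd x hx).1 (bd x' hx').1 (bd x hx).2 (bd x' hx').2 ?_
            have s1 := sep a v hab.ne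
            have s2 := abs_le.1 hx
            have s3 := abs_le.1 hx'
            have s4 := abs_le.1 p1
            rcases le_abs.1 s1 with s5 | s5
            · exact le_abs.2 (Or.inr (by linarith))
            · exact le_abs.2 (Or.inl (by linarith)))
          fun x hx => ⟨by positivity, (ub x hx).trans (win _ (hN v))⟩
        refine ⟨(x, _), ⟨⟨x1, x3⟩, x2, by positivity, ub x x2⟩, fun b hb eb => ?_⟩
        obtain rfl := uniq hT r hab hb ea eb
        have := Real.sq_sqrt (bd x x2).1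
        simp only
        nlinarith
      · obtain ⟨x, x1, x2, x3⟩ := hit J (c v) (cK v) (fun x => h + (x - c v))
          (fun x _ x' _ _ _ => by simp) fun x hx => by
            have := win 0 (Nat.zero_le _)
            simp only [Nat.cast_zero] at this
            constructor <;> linarith [(abs_le.1 hx).1, (abs_le.1 hx).2]
        refine ⟨(x, _), ⟨⟨x1, x3⟩, x2, ?_, ?_⟩, fun b hb eb => absurd ⟨b, hb, eb⟩ ex⟩
        · simp only; linarith [(abs_le.1 x2).1]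
        · simp only
          nlinarith [(abs_le.1 x2).2, Nat.cast_nonneg (α := ℝ) (T.dist r v)]
    have all : ∀ m : ℕ, ∃ y : Fin n → ℝ × ℝ, ∀ v, T.dist r v < m → P v (y v) ∧ R y v (y v) := by
      intro m
      induction m with
      | zero => exact ⟨0, fun v hv => absurd hv (Nat.not_lt_zero _)⟩
      | succ m ih =>
        obtain ⟨y, hy⟩ := ih
        have : ∀ v, ∃ z, T.dist r v = m → P v z ∧ R y v z := fun v => by
          by_cases hv : T.dist r v = m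
          · obtain ⟨z, hz⟩ := new y v fun a ha => (hy a (hv ▸ ha)).1
            exact ⟨z, fun _ => hz⟩
          · exact ⟨0, fun h => absurd h hv⟩
        choose z hz using this
        refine ⟨fun v => if T.dist r v = m then z v else y v, fun v hv => ?_⟩
        by_cases hm : T.dist r v = m
        · simp only [if_pos hm]
          refine ⟨(hz v hm).1, fun a hab ea => ?_⟩
          simp only [if_neg (show T.dist r a ≠ m by omega)]
          exact (hz v hm).2 a hab ea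
        · simp only [if_neg hm]
          refine ⟨(hy v (by omega)).1, fun a hab ea => ?_⟩
          simp only [if_neg (show T.dist r a ≠ m by omega)]
          exact (hy v (by omega)).2 a hab ea
    obtain ⟨y, hy⟩ := all (N + 1)
    have hy' := fun v => hy v (Nat.lt_succ_of_le (hN v))
    refine ⟨y, fun a b hab => ?_, fun v => (hy' v).1.1, fun a b hab => ?_⟩
    · by_contra hne
      have s1 := sep a b hne
      have s2 := (hy' a).1.2.1
      have s3 := (hy' b).1.2.1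
      rw [hab] at s2
      linarith [abs_sub_le (c a) (y b).1 (c b), abs_sub_comm (c a) (y b).1]
    · rw [← Real.sqrt_sq (hd2 a b hab).1]
      congr 1
      rcases hT.dist_eq_dist_add_one_of_adj r hab with ea | ea
      · have := (hy' a).2 b hab.symm ea.symm
        have e3 : (⟨s(a, b), hab⟩ : T.edgeSet) = ⟨s(b, a), hab.symm⟩ := Subtype.ext Sym2.eq_swap
        rw [e3, this]; ring
      · exact (hy' b).2 a hab ea.symm
  refine Nonempty.mono (interior_maximal hU (isOpen_set_pi finite_univ fun z _ => isOpen_Ioo)) ?_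
  exact univ_pi_nonempty_iff.2 fun z => nonempty_Ioo.2
    (Real.sqrt_lt_sqrt (by have := g0 z; positivity) (by nlinarith))

end Pool.Agent.Results.MP_d100af_an.OnePartner
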